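import Pool.Agent.P.MP_c11f96_co.Every

set_option autoImplicit false

namespace Pool.Agent.Results.MP_c11f96_co.EveryK

open Pool.Agent.P.MP_c11f96_co.Every

/-- For every `k ≥ 4`, with `r = reg(k)`, the number `η = (r - 2k + 2) / (2kr(3r - 2))` is positive
and for infinitely many `n` divisible by `k` some oriented graph on `n` vertices has minimum
semidegree at least `(1/2 - (k-1)/(2kr) + η) n - 1` and no perfect tiling by transitive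
`k`-tournaments. -/
theorem result :
    ∀ k : ℕ, 4 ≤ k → ∃ r : ℕ,
      IsGreatest {m : ℕ | ∃ T : Fin m → Fin m → Prop,
          (∀ x, ¬ T x x) ∧
          (∀ x y, x ≠ y → (T x y ↔ ¬ T y x)) ∧
          (∀ v, Set.ncard {w | T v w} = Set.ncard {w | T w v}) ∧
          ¬ ∃ f : Fin k → Fin m, Function.Injective f ∧
              ∀ i j : Fin k, i < j → T (f i) (f j)} r ∧
      ∃ η : ℝ, 0 < η ∧
        η = ((r:ℝ) - 2 * (k:ℝ) + 2) / (2 * (k:ℝ) * (r:ℝ) * (3 * (r:ℝ) - 2)) ∧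
        ∀ n0 : ℕ, ∃ n : ℕ, n0 ≤ n ∧ k ∣ n ∧
          ∃ G : Fin n → Fin n → Prop,
            (∀ x, ¬ G x x) ∧
            (∀ x y, G x y → ¬ G y x) ∧
            (∀ v, ((1:ℝ)/2 - ((k:ℝ) - 1) / (2 * (k:ℝ) * (r:ℝ)) + η) * (n:ℝ) - 1
                    ≤ (Set.ncard {w | G v w} : ℝ) ∧
                  ((1:ℝ)/2 - ((k:ℝ) - 1) / (2 * (k:ℝ) * (r:ℝ)) + η) * (n:ℝ) - 1
                    ≤ (Set.ncard {w | G w v} : ℝ)) ∧
            ¬ ∃ f : Fin (n / k) → Fin k → Fin n,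
              Function.Bijective (fun p : Fin (n / k) × Fin k => f p.1 p.2) ∧
              ∀ t : Fin (n / k), ∀ i j : Fin k, i < j → G (f t i) (f t j) := by
  intro k hk
  obtain ⟨r, hr, hkr⟩ := exists_reg hk
  refine ⟨r, hr, _, ?_, rfl, fun n0 => ?_⟩
  · have h1 : (4:ℝ) ≤ k := by exact_mod_cast hk
    have h2 : 2 * (k:ℝ) ≤ r + 1 := by exact_mod_cast hkr
    apply div_pos (by linarith)
    have h3 : (0:ℝ) < r := by linarith
    have h4 : (0:ℝ) < 3 * r - 2 := by linarith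
    positivity
  obtain ⟨d, hd⟩ : ∃ d, r = 2 * d + 1 := by
    obtain ⟨T, h1, h2, h3, -⟩ := hr.1
    have e1 := deg_sum (T := T) ⟨h1, h2⟩ ⟨0, by omega⟩
    have e2 := h3 ⟨0, by omega⟩
    rw [Nat.card_eq_fintype_card, Fintype.card_fin] at e1
    exact ⟨_, by rw [← e1, e2, two_mul]⟩
  obtain ⟨κ, rfl⟩ : ∃ κ, k = κ + 2 := ⟨k - 2, by omega⟩
  obtain ⟨e, he⟩ : ∃ e, r = κ + 2 + e := ⟨r - (κ + 2), by omega⟩
  set q : ℕ := (3 * κ + 3 * e + 4) * n0 + (3 * κ + 3 * e + 2) with hq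
  set b : ℕ := (3 * κ + 2) * (n0 + 1) with hb
  set g : ℕ := (κ + 2 + 2 * e) * n0 + 2 * e with hg
  have hn : (κ + 2) * q = r * b + 2 * g := by rw [hq, hb, hg, he]; ring
  have hdiv : (κ + 2) * q / (κ + 2) = q := Nat.mul_div_cancel_left q (by omega)
  have hw : b + 3 * g < 2 * ((κ + 2) * q / (κ + 2)) := by
    rw [hdiv, hq, hb, hg]
    nlinarith
  obtain ⟨G, g1, g2, g3, g4⟩ := construction hd hr.1 (by rw [hb]; positivity) hn hw
  refine ⟨(κ + 2) * q, by rw [hq]; nlinarith, Dvd.intro _ rfl, G, g1, g2, fun v => ?_, g4⟩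
  have key : ((1:ℝ)/2 - (((κ + 2 : ℕ):ℝ) - 1) / (2 * ((κ + 2 : ℕ):ℝ) * (r:ℝ)) +
      ((r:ℝ) - 2 * ((κ + 2 : ℕ):ℝ) + 2) / (2 * ((κ + 2 : ℕ):ℝ) * (r:ℝ) * (3 * (r:ℝ) - 2))) *
      (((κ + 2) * q : ℕ):ℝ) - 1 ≤ ((d * b + g : ℕ) : ℝ) := by
    have hκ : (0:ℝ) ≤ κ := Nat.cast_nonneg _
    have hee : (0:ℝ) ≤ e := Nat.cast_nonneg _
    have hR : (r:ℝ) = κ + 2 + e := by exact_mod_cast he
    have h3 : (0:ℝ) < r := by linarith
    have h4 : (0:ℝ) < 3 * r - 2 := by linarith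
    have hc : (1:ℝ)/2 - (((κ + 2 : ℕ):ℝ) - 1) / (2 * ((κ + 2 : ℕ):ℝ) * (r:ℝ)) +
        ((r:ℝ) - 2 * ((κ + 2 : ℕ):ℝ) + 2) / (2 * ((κ + 2 : ℕ):ℝ) * (r:ℝ) * (3 * (r:ℝ) - 2)) =
        1/2 - (3 * κ + 2) / (2 * (κ + 2) * (3 * r - 2)) := by
      push_cast
      obtain ⟨u, hu⟩ : ∃ u : ℝ, u = 3 * r - 2 := ⟨_, rfl⟩
      rw [← hu] at h4 ⊢
      field_simp
      rw [hu]
      ring
    have hdb : ((d * b + g : ℕ) : ℝ) = ((((κ + 2) * q : ℕ):ℝ) - b) / 2 := by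
      rw [hn, hd]
      push_cast
      ring
    have hqR : (q:ℝ) = (3 * r - 2) * (n0 + 1) - 2 := by
      rw [hq, hR]
      push_cast
      ring
    have hbR : (b:ℝ) = (3 * κ + 2) * (n0 + 1) := by
      rw [hb]
      push_cast
      ring
    have hfrac : (3 * (κ:ℝ) + 2) / (3 * r - 2) ≤ 1 := by
      rw [div_le_one h4]
      linarith
    have hmain : (1/2 - (3 * (κ:ℝ) + 2) / (2 * (κ + 2) * (3 * r - 2))) * (((κ + 2) * q : ℕ):ℝ) =
        ((((κ + 2) * q : ℕ):ℝ) - b) / 2 + (3 * (κ:ℝ) + 2) / (3 * r - 2) := by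
      push_cast
      rw [hqR, hbR]
      field_simp
      ring
    rw [hc, hdb, hmain]
    linarith
  exact ⟨key.trans (by exact_mod_cast (g3 v).1), key.trans (by exact_mod_cast (g3 v).2)⟩

end Pool.Agent.Results.MP_c11f96_co.EveryK
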